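import Pool.Agent.H.MP_773080_lc.Main
namespace Pool.Agent.Results.MP_773080_lc.NotPrincipal

def isNonterminal {X N : Type} : Symbol X N → Bool
  | .terminal _ => false
  | .nonterminal _ => true

def IsLinear {X : Type} (L : Language X) : Prop :=
  ∃ g : ContextFreeGrammar.{0} X,
    (∀ r ∈ g.rules, r.output.countP isNonterminal ≤ 1) ∧ g.language = L

structure AGsm (X Y : Type) where
  Q : Type
  fin : Finite Q
  init : Q
  step : Q → X → Q
  out : Q → X → List Y
  accept : Set Q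

def AGsm.output {X Y : Type} (M : AGsm X Y) : M.Q → List X → List Y
  | _, [] => []
  | q, x :: u => M.out q x ++ M.output (M.step q x) u

def AGsm.inv {X Y : Type} (M : AGsm X Y) (L : Language Y) : Language X :=
  {u | u.foldl M.step M.init ∈ M.accept ∧ M.output M.init u ∈ L}

inductive InG {Y : Type} (L₀ : Language Y) : (X : Type) → Language X → Prop
  | base : InG L₀ Y L₀
  | inv {X Z : Type} [Finite Z] (L : Language X) (M : AGsm Z X) : InG L₀ X L → InG L₀ Z (M.inv L)

open Pool.Agent.H.MP_8f9e48_lc Pool.Agent.H.MP_773080_lc List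

lemma output_append {X Y : Type} (M : AGsm X Y) (q : M.Q) (u v : List X) :
    M.output q (u ++ v) = M.output q u ++ M.output (u.foldl M.step q) v := by
  induction u generalizing q with
  | nil => rfl
  | cons x u ih => simp [AGsm.output, ih]

def comp {X Y Z : Type} (M : AGsm Z X) (K : AGsm X Y) : AGsm Z Y where
  Q := M.Q × K.Q
  fin := by have := M.fin; have := K.fin; infer_instance
  init := (M.init, K.init)
  step q z := (M.step q.1 z, (M.out q.1 z).foldl K.step q.2)
  out q z := K.output q.2 (M.out q.1 z)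
  accept := M.accept ×ˢ K.accept

lemma comp_spec {X Y Z : Type} (M : AGsm Z X) (K : AGsm X Y) (u : List Z) (p : M.Q) (q : K.Q) :
    u.foldl (comp M K).step (p, q) = (u.foldl M.step p, (M.output p u).foldl K.step q) ∧
    (comp M K).output (p, q) u = K.output q (M.output p u) := by
  induction u generalizing p q with
  | nil => exact ⟨rfl, rfl⟩
  | cons z u ih =>
    obtain ⟨h1, h2⟩ := ih (M.step p z) ((M.out p z).foldl K.step q)
    constructor
    · rw [foldl_cons, AGsm.output, foldl_append]; exact h1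
    · rw [AGsm.output.eq_2 M, output_append]; exact congrArg (K.output q (M.out p z) ++ ·) h2

lemma inG_elim {Y X : Type} {L₀ : Language Y} {L : Language X} (h : InG L₀ X L) :
    ∃ M : AGsm X Y, M.inv L₀ = L := by
  induction h with
  | base =>
    let M : AGsm Y Y := ⟨Unit, inferInstance, (), fun _ _ => (), fun _ y => [y], Set.univ⟩
    have : ∀ u, M.output () u = u := by
      intro u
      induction u with
      | nil => rfl
      | cons x u ih => exact congrArg (x :: ·) ih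
    refine ⟨M, ?_⟩
    ext u
    exact ⟨fun h => this u ▸ h.2, fun h => ⟨trivial, (this u).symm ▸ h⟩⟩
  | inv L M _ ih =>
    obtain ⟨K, rfl⟩ := ih
    refine ⟨comp M K, ?_⟩
    ext u
    obtain ⟨h1, h2⟩ := comp_spec M K u M.init K.init
    change (foldl (comp M K).step (M.init, K.init) u ∈ M.accept ×ˢ K.accept ∧
      (comp M K).output (M.init, K.init) u ∈ L₀) ↔ _
    rw [h1, h2]
    exact and_assoc

abbrev A (n : ℕ) := Fin n ⊕ Fin 3
abbrev NT (n : ℕ) := Fin n ⊕ Fin n ⊕ Bool

def R (n : ℕ) : Set (ContextFreeRule (A n) (NT n)) :=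
  Set.range (fun t : Fin n => ⟨.inr (.inr false), [.nonterminal (.inl t), .terminal (.inl t)]⟩) ∪
  Set.range (fun z : Fin n × Fin n =>
    ⟨.inl z.1, [.terminal (.inl z.2), .nonterminal (.inl z.1), .terminal (.inr 2)]⟩) ∪
  Set.range (fun t : Fin n => ⟨.inl t, [.nonterminal (.inr (.inl t))]⟩) ∪
  (fun z : Fin n × Fin n =>
    ⟨.inr (.inl z.1), [.terminal (.inl z.2), .nonterminal (.inr (.inl z.1))]⟩) '' {z | z.2 ≠ z.1} ∪
  Set.range (fun t : Fin n => ⟨.inr (.inl t), [.nonterminal (.inr (.inr true))]⟩) ∪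
  {⟨.inr (.inr true), [.terminal (.inr 0), .nonterminal (.inr (.inr true)), .terminal (.inr 1)]⟩,
    ⟨.inr (.inr true), []⟩}

lemma R_fin (n : ℕ) : (R n).Finite :=
  (((((Set.finite_range _).union (Set.finite_range _)).union (Set.finite_range _)).union
    ((Set.toFinite _).image _)).union (Set.finite_range _)).union (Set.toFinite _)

def Sig {n : ℕ} (w : List (A n)) : Prop := ∀ x ∈ w, ∃ s, x = .inl s

def SZ {n : ℕ} (w : List (A n)) : Prop := ∃ p, w = replicate p (.inr 0) ++ replicate p (.inr 1)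
def SY {n : ℕ} (t : Fin n) (w : List (A n)) : Prop :=
  ∃ u v, w = u ++ v ∧ Sig u ∧ .inl t ∉ u ∧ SZ v
def SX {n : ℕ} (t : Fin n) (w : List (A n)) : Prop :=
  ∃ u v, w = u ++ v ++ replicate u.length (.inr 2) ∧ Sig u ∧ SY t v

def Sem {n : ℕ} : NT n → List (A n) → Prop
  | .inl t => SX t
  | .inr (.inl t) => SY t
  | .inr (.inr true) => SZ
  | .inr (.inr false) => fun w => ∃ t v, w = v ++ [.inl t] ∧ SX t v

def SemL {n : ℕ} : List (Symbol (A n) (NT n)) → List (A n) → Prop
  | [], w => w = []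
  | .terminal x :: s, w => ∃ v, w = x :: v ∧ SemL s v
  | .nonterminal B :: s, w => ∃ u v, w = u ++ v ∧ Sem B u ∧ SemL s v

lemma sound {n : ℕ} {s w} (h : Gen (R n) s w) : SemL s w := by
  induction h with
  | nil => rfl
  | term x _ ih => exact ⟨_, rfl, ih⟩
  | @nt r u s w hr _ _ ih1 ih2 =>
    refine ⟨u, w, rfl, ?_, ih2⟩
    rcases hr with ((((⟨t, rfl⟩ | ⟨⟨t, x⟩, rfl⟩) | ⟨t, rfl⟩) | ⟨⟨t, x⟩, hx, rfl⟩) | ⟨t, rfl⟩) | rfl | rfl
    · obtain ⟨v, _, rfl, h1, _, rfl, rfl⟩ := ih1
      exact ⟨t, v, rfl, h1⟩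
    · obtain ⟨_, rfl, _, _, rfl, ⟨u, v, rfl, h1, h2⟩, _, rfl, rfl⟩ := ih1
      refine ⟨.inl x :: u, v, by simp [replicate_succ'], fun y hy => ?_, h2⟩
      rcases mem_cons.mp hy with rfl | hy
      · exact ⟨x, rfl⟩
      · exact h1 y hy
    · obtain ⟨v, _, rfl, h1, rfl⟩ := ih1
      exact ⟨[], v, by simp, by simp [Sig], h1⟩
    · obtain ⟨_, rfl, _, _, rfl, ⟨u, v, rfl, h1, h2, h3⟩, rfl⟩ := ih1
      refine ⟨.inl x :: u, v, by simp, fun y hy => ?_, ?_, h3⟩
      · rcases mem_cons.mp hy with rfl | hy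
        · exact ⟨x, rfl⟩
        · exact h1 y hy
      · have : t ≠ x := fun h => hx h.symm
        simp [this, h2]
    · obtain ⟨v, _, rfl, h1, rfl⟩ := ih1
      exact ⟨[], v, by simp, by simp [Sig], by simp, h1⟩
    · obtain ⟨_, rfl, _, _, rfl, ⟨p, rfl⟩, _, rfl, rfl⟩ := ih1
      refine ⟨p + 1, ?_⟩
      rw [replicate_succ, replicate_succ']
      simp
    · exact ⟨0, ih1⟩

lemma use {n : ℕ} (r : ContextFreeRule (A n) (NT n)) (hr : r ∈ R n) {w}
    (h : Gen (R n) r.output w) : Gen (R n) [.nonterminal r.input] w := Gen.single.mpr ⟨r, hr, rfl, h⟩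

lemma genZ {n : ℕ} (p : ℕ) : Gen (R n) [.nonterminal (.inr (.inr true))]
    (replicate p (.inr 0) ++ replicate p (.inr 1)) := by
  induction p with
  | zero => exact use ⟨_, []⟩ (Or.inr (Or.inr rfl)) .nil
  | succ p ih =>
    rw [replicate_succ, replicate_succ', cons_append, ← append_assoc]
    exact use ⟨_, _⟩ (Or.inr (Or.inl rfl)) (.term _ (gen_append ih (.term _ .nil)))

lemma genY {n : ℕ} (t : Fin n) {u v : List (A n)} (h1 : Sig u) (h2 : .inl t ∉ u)
    (h : Gen (R n) [.nonterminal (.inr (.inr true))] v) :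
    Gen (R n) [.nonterminal (.inr (.inl t))] (u ++ v) := by
  induction u with
  | nil => exact use ⟨_, _⟩ (Or.inl (Or.inr ⟨t, rfl⟩)) h
  | cons x u ih =>
    obtain ⟨s, rfl⟩ := h1 x mem_cons_self
    have h3 : s ≠ t := fun h => h2 (h ▸ mem_cons_self)
    exact use ⟨_, _⟩ (Or.inl (Or.inl (Or.inr ⟨(t, s), h3, rfl⟩)))
      (.term _ (ih (fun y hy => h1 y (mem_cons_of_mem _ hy)) (fun h => h2 (mem_cons_of_mem _ h))))

lemma genX {n : ℕ} (t : Fin n) {u v : List (A n)} (h1 : Sig u)
    (h : Gen (R n) [.nonterminal (.inr (.inl t))] v) :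
    Gen (R n) [.nonterminal (.inl t)] (u ++ v ++ replicate u.length (.inr 2)) := by
  induction u with
  | nil =>
    simp only [nil_append, length_nil, replicate_zero, append_nil]
    exact use ⟨_, _⟩ (Or.inl (Or.inl (Or.inl (Or.inr ⟨t, rfl⟩)))) h
  | cons x u ih =>
    obtain ⟨s, rfl⟩ := h1 x mem_cons_self
    rw [length_cons, replicate_succ', cons_append, cons_append, ← append_assoc]
    exact use ⟨_, _⟩ (Or.inl (Or.inl (Or.inl (Or.inl (Or.inr ⟨(t, s), rfl⟩)))))
      (.term _ (gen_append (ih fun y hy => h1 y (mem_cons_of_mem _ hy)) (.term _ .nil)))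

def isI {n : ℕ} (i : Fin 3) : A n → Bool
  | .inl _ => false
  | .inr j => decide (j = i)

lemma Sig.count {n : ℕ} {u : List (A n)} (h : Sig u) (i : Fin 3) : u.countP (isI i) = 0 :=
  countP_eq_zero.mpr fun x hx => by
    obtain ⟨s, rfl⟩ := h _ hx
    simp [isI]

lemma inv_L {n : ℕ} {y z : List (A n)} {p p' : ℕ} {t : Fin n} (hy : Sig y) (hz : Sig z)
    (h : Gen (R n) [.nonterminal (.inr (.inr false))] (y ++ z ++ (replicate p (.inr 0) ++
      replicate p' (.inr 1) ++ (replicate y.length (.inr 2) ++ [.inl t])))) :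
    p = p' ∧ .inl t ∉ z := by
  obtain ⟨_, _, h1, ⟨t', _, rfl, u, _, rfl, hu, v, _, rfl, hv, hv', k, rfl⟩, rfl⟩ := sound h
  rw [append_nil] at h1
  have c0 := congrArg (countP (isI 0)) h1
  have c1 := congrArg (countP (isI 1)) h1
  have c2 := congrArg (countP (isI 2)) h1
  simp [countP_replicate, isI, hy.count, hz.count, hu.count, hv.count] at c0 c1 c2
  refine ⟨by omega, fun hm => hv' ?_⟩
  simp only [← append_assoc] at h1
  obtain ⟨h2, h3⟩ := append_inj' h1 rfl
  obtain rfl : t = t' := by simpa using h3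
  simp only [append_assoc] at h2
  have h4 := (append_inj h2 c2).2
  have h5 : Sum.inl t ∈ v ++ (replicate k (.inr 0) ++ (replicate k (.inr 1) ++
      replicate u.length (.inr 2))) := h4 ▸ mem_append_left _ hm
  simpa [mem_replicate] using h5

theorem result (Y : Type) [Finite Y] (L₀ : Language Y) (h₀ : IsLinear L₀) :
    ∃ (X : Type) (_ : Finite X) (L : Language X), IsLinear L ∧ ¬ InG L₀ X L := by
  classical
  obtain ⟨g, hg, rfl⟩ := h₀
  have hnt : ∀ {X N : Type}, (isNonterminal : Symbol X N → Bool) = isNT := by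
    intro X N; funext s; cases s <;> rfl
  let S : Set (List (Symbol Y g.NT)) :=
    {s | s <:+: [.nonterminal g.initial] ∨ ∃ r ∈ g.rules, s <:+: r.output}
  have hi : ∀ l : List (Symbol Y g.NT), {s | s <:+: l}.Finite := fun l =>
    l.sublists.finite_toSet.subset fun s hs => mem_sublists.mpr hs.sublist
  have hS : S.Finite := by
    refine ((hi [.nonterminal g.initial]).union (g.rules.finite_toSet.biUnion fun r _ => hi r.output)).subset ?_
    rintro s (h | ⟨r, hr, h⟩)
    · exact Or.inl h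
    · exact Or.inr (Set.mem_biUnion hr h)
  have hstep : ∀ s ∈ S, ∀ w, Gen (g.rules : Set _) s w → w ≠ [] → Step S (Gen (g.rules : Set _)) s w := by
    intro s hs w h hw
    refine dec S ?_ ?_ (fun r hr => Or.inr ⟨r, hr, infix_rfl⟩) h hs hw
    · rintro s (h | ⟨r, hr, h⟩) s' h'
      · exact Or.inl (h'.trans h)
      · exact Or.inr ⟨r, hr, h'.trans h⟩
    · rintro s (h | ⟨r, hr, h⟩)
      · exact h.sublist.countP_le.trans (by simp [isNT])
      · exact h.sublist.countP_le.trans (hnt ▸ hg r hr)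
  obtain ⟨n, hn⟩ := pigeon hS
  let G : ContextFreeGrammar (A (n + 2)) := ⟨NT (n + 2), .inr (.inr false), (R_fin _).toFinset⟩
  have hG : ∀ w, w ∈ G.language ↔ Gen (R (n + 2)) [.nonterminal (.inr (.inr false))] w := by
    intro w
    refine (gen_iff G _ w).trans ?_
    simp only [G, Set.Finite.coe_toFinset]
  refine ⟨A (n + 2), inferInstance, G.language, ⟨G, fun r hr => ?_, rfl⟩, fun h => ?_⟩
  · have hr : r ∈ R (n + 2) := (R_fin _).mem_toFinset.mp hr
    rcases hr with ((((⟨t, rfl⟩ | ⟨⟨t, x⟩, rfl⟩) | ⟨t, rfl⟩) | ⟨⟨t, x⟩, hx, rfl⟩) | ⟨t, rfl⟩) | rfl | rfl <;>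
      simp [isNonterminal, countP_cons]
  obtain ⟨M, hM⟩ := inG_elim h
  have := M.fin
  let Al : ℕ → Set (A (n + 2)) := fun j => {x | ∃ s : Fin (n + 2), x = .inl s ∧ (s : ℕ) ≤ j}
  obtain ⟨y, hy, hrec⟩ := recN M.step Al
    (fun i j hij x ⟨s, h1, h2⟩ => ⟨s, h1, h2.trans hij⟩) (n + 1) M.init
  have sig : ∀ {j} {w : List (A (n + 2))}, (∀ x ∈ w, x ∈ Al j) → Sig w :=
    fun h x hx => let ⟨s, h1, _⟩ := h x hx; ⟨s, h1⟩
  have hV : ∀ j, ∃ V : List (A (n + 2)), j ≤ n → (∀ x ∈ V, x ∈ Al j) ∧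
      (∀ s : Fin (n + 2), (s : ℕ) ≤ j → .inl s ∈ V) ∧
      V.foldl M.step (y.foldl M.step M.init) = y.foldl M.step M.init := by
    intro j
    by_cases hj : j ≤ n
    · let w : List (A (n + 2)) := ((finRange (n + 2)).filter fun s : Fin (n + 2) => (s : ℕ) ≤ j).map .inl
      have hw : ∀ x ∈ w, x ∈ Al j := by
        intro x hx
        obtain ⟨s, h1, rfl⟩ := mem_map.mp hx
        exact ⟨s, rfl, by simpa using h1⟩
      obtain ⟨u, h1, h2⟩ := hrec j (by omega) w hw
      refine ⟨w ++ u, fun _ => ⟨fun x hx => (mem_append.mp hx).elim (hw x) (h1 x), fun s hs => ?_, h2⟩⟩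
      exact mem_append_left _ (mem_map.mpr ⟨s, by simpa using hs, rfl⟩)
    · exact ⟨[], fun h => absurd h hj⟩
  choose V hV using hV
  have hMem : ∀ x, Gen (R (n + 2)) [.nonterminal (.inr (.inr false))] x ↔
      x.foldl M.step M.init ∈ M.accept ∧
        Gen (g.rules : Set _) [.nonterminal g.initial] (M.output M.init x) := by
    intro x
    rw [← hG, ← hM, ← gen_iff]
    rfl
  have sigp : ∀ j ≤ n, ∀ k, Sig (pw (V j) k) := fun j hj k x hx => sig (hV j hj).1 x (mem_pw hx)
  have key : ∀ j, ∃ C, ∀ hj : j ≤ n, C ∈ S ∧ (∃ r ≥ 1, Ctx (Gen (g.rules : Set _)) C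
      (M.output (y.foldl M.step M.init) (pw (V j) r)) [] C) ∧ ∀ V' : List (A (n + 2)), Sig V' →
      V'.foldl M.step (y.foldl M.step M.init) = y.foldl M.step M.init →
      Ctx (Gen (g.rules : Set _)) C (M.output (y.foldl M.step M.init) V') [] C →
      .inl ⟨j + 1, by omega⟩ ∉ V' := by
    intro j
    by_cases hj : j ≤ n
    · have hj1 : j + 1 < n + 2 := by omega
      obtain ⟨C, h1, h2, h3⟩ := main hS hstep (Or.inl infix_rfl) M.step M.output M.accept M.init
        (fun _ => rfl) (output_append M) _ hMem (.inr 0) (.inr 1) y (V j)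
        (replicate y.length (.inr 2) ++ [.inl ⟨j + 1, hj1⟩]) _ rfl (hV j hj).2.2
        (fun k p => by
          have a1 : (.inl ⟨j + 1, hj1⟩ : A (n + 2)) ∉ pw (V j) k := fun h => by
            obtain ⟨s, h1, h2⟩ := (hV j hj).1 _ (mem_pw h)
            cases h1
            exact absurd h2 (by simp)
          have a2 := genX _ (sig hy) (genY _ (sigp j hj k) a1 (genZ p))
          have a3 := use ⟨_, _⟩ (Or.inl (Or.inl (Or.inl (Or.inl (Or.inl ⟨⟨j + 1, hj1⟩, rfl⟩)))))
            (gen_append a2 (.term _ .nil))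
          simpa only [append_assoc] using a3)
        (fun k p p' h => (inv_L (sig hy) (sigp j hj k) h).1)
      refine ⟨C, fun _ => ⟨h1, h2, fun V' s1 s2 s3 hm => ?_⟩⟩
      obtain ⟨i, k, p, h4⟩ := h3 V' s2 s3
      refine (inv_L (sig hy) (fun x hx => ?_) h4).2 (by simp [hm])
      rcases mem_append.mp hx with hx | hx
      · exact (mem_append.mp hx).elim (sigp j hj i x) (s1 x)
      · exact sigp j hj k x hx
    · exact ⟨[], fun h => absurd h hj⟩
  choose C hC using key
  obtain ⟨i, j, h1, h2, h3⟩ := hn C fun i hi => (hC i hi).1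
  obtain ⟨r, hr, h4⟩ := (hC j h2).2.1
  refine (hC i (by omega)).2.2 (pw (V j) r) (sigp j h2 r) ?_ (h3 ▸ h4) ?_
  · clear h4 hr
    induction r with
    | zero => rfl
    | succ r ih => rw [pw, foldl_append, ih, (hV j h2).2.2]
  · obtain ⟨r, rfl⟩ : ∃ r', r = r' + 1 := ⟨r - 1, by omega⟩
    exact mem_append_right _ ((hV j h2).2.1 _ h1)

end Pool.Agent.Results.MP_773080_lc.NotPrincipal
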